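import Pool.Agent.W2helper46.RL.Group

/-!
# Rémond's inequality implies the relative Lehmer inequality for the images of all characters

`Qb` is an algebraic closure of `ℚ`, and `Torus n = (Fin n → Qbˣ)` is the group of the points of
`G = G_m^n` over it. The notions of the problem are defined in `Pool/Agent/W2helper46/RL/Defs.lean`;
`mon v` is the character of the torus with the vector of exponents `v`.

**Theorem.** Let `Γ` be any subgroup of `G_m^n` of finite rank, and suppose that
`ω_{K(Γ)}(V) μ_ess(V) ≥ c` for all `Γ`-transverse subvarieties `V ≠ G`. Let `χ` be any nontrivial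
character of `G_m^n`. Then `h(u) ≥ c / (n! [K(Γ)(u) : K(Γ)])` for all `u` which are not in the
saturation of `χ(Γ)`.

So if `Γ` is a Lehmer group in `G_m^n`, then the relative Lehmer inequality for the groups `χ(Γ)` in
`G_m` holds over the field `K(Γ)`, with a constant which does not depend on `χ`. In particular all
numbers of sufficiently small height in `K(Γ)` are in the saturations of all groups `χ(Γ)`. For
`Γ = {1}` this is the classical Lehmer inequality, and for the torsion group it is the relative one.

The point which proves this has the coordinates `t_i = q_i^{1/M}` for `i ≠ j`, and its `j`-th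
coordinate is determined by `χ(P) = u`, where the exponent of `x_j` in `χ` is the largest one. The
numbers `q_i` are multiplicatively independent modulo the group generated by `u` and the
coordinates of the points of `Γ`, so `P` is `Γ`-transverse. The hypersurface `χ ∈ {conjugates of u}`
contains `P` and is defined over `K(Γ)`; its degree is `(n-1)! [K(Γ)(u) : K(Γ)] ∑ |v_i|`, where
`v_i` are the exponents of `χ` (if they are coprime); its Hilbert function is computed in `Deg.lean`.
-/

set_option autoImplicit false

open Pool.Agent.W2helper46.RL

namespace Pool.Agent.Results.MP_187c26_nt.CharacterImages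

theorem result (n : ℕ) (K : IntermediateField ℚ Qb) (Γ : Subgroup (Torus n))
    (hΓ : HasFiniteRank Γ) (c : ℝ) (hc : LehmerBound K Γ c) (v : Fin n → ℤ) (hv : v ≠ 0)
    (u : Qbˣ) (hu : ∀ m : ℕ, 0 < m → ∀ γ ∈ Γ, u ^ m ≠ mon v γ) :
    c / (n.factorial * (minpoly (coordField K Γ) (u : Qb)).natDegree) ≤
      NumberField.absLogHeight₁ (u : Qb) := by
  have h := main_ineq K Γ hΓ c hc v hv u hu
  have h1 : 0 < (minpoly (coordField K Γ) (u : Qb)).natDegree :=
    minpoly.natDegree_pos (Algebra.IsAlgebraic.isAlgebraic (R := coordField K Γ)
      (u : Qb)).isIntegral
  have h2 : (0 : ℝ) < n.factorial * (minpoly (coordField K Γ) (u : Qb)).natDegree := by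
    positivity
  rw [div_le_iff₀ h2]
  linarith

end Pool.Agent.Results.MP_187c26_nt.CharacterImages
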