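import Pool.Agent.W2helper46.RL.Group

/-!
# Finite rank groups in tori which are not Lehmer groups

`Qb` is an algebraic closure of `ℚ`, and `Torus n = (Fin n → Qbˣ)` is the group of the points of
`G = G_m^n` over it. All notions of the problem are defined in `Pool/Agent/W2helper46/RL/Defs.lean`
for `G = G_m^n` and `L = O(1, ..., 1)`: the height `hG`, Zariski closed sets and subvarieties, the
essential minimum `essMin`, the degree with respect to `O(1, ..., 1)` (`HasDegree`, by the Hilbert
function), equidimensional closed sets, the obstruction index `obstructionIndex`, `Γ`-torsion and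
`Γ`-transverse subvarieties, and the field `K(Γ)` (`coordField`).

**Theorem (the negation of Q1).** For every number field `K` and every `n ≥ 2` there is a subgroup `Γ`
of `G_m^n` of rank one, such that for every `c > 0` some `Γ`-transverse subvariety `V ≠ G` satisfies
`ω_{K(Γ)}(V) μ_ess(V) < c`.

The group is `Γ = {(x, 1, ..., 1) : x^m ∈ ⟨2⟩ for some m > 0}`, and `V` is a point of the
hypersurface `x_2 = 2^{1/N}`. The hypersurface is defined over `K(Γ)` and has degree `(n-1)!`. The
other coordinates of the point are `M`-th roots of numbers which are multiplicatively independent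
modulo the group generated by `2`, so that the point is `Γ`-transverse, and the height of the point
tends to `log 2 / N` for `M → ∞`.

The group `Γ` is not stable under the endomorphisms of `G_m^n`. The theorem is deduced from an
inequality for all finite rank groups (`main_ineq` in `Group.lean`, see `CharacterImages.lean`), and
`SaturatedLehmer.lean` shows which saturated groups have to be excluded.
-/

set_option autoImplicit false

open Pool.Agent.W2helper46.RL

namespace Pool.Agent.Results.MP_187c26_nt.NotLehmer

theorem result (K : IntermediateField ℚ Qb) (_hK : FiniteDimensional ℚ K) (n : ℕ) (hn : 2 ≤ n) :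
    ∃ Γ : Subgroup (Torus n), HasFiniteRank Γ ∧
      (∃ t ∈ Γ, ∀ g ∈ Γ, ∃ m : ℕ, 0 < m ∧ g ^ m ∈ Subgroup.zpowers t) ∧
      ∀ c : ℝ, 0 < c → ∃ V : Set (Torus n), IsSubvariety V ∧ V ≠ Set.univ ∧
        IsTransverse Γ V ∧ obstructionIndex (coordField K Γ) V * essMin V < c := by
  set j : Fin n := ⟨0, by omega⟩ with hj
  set j' : Fin n := ⟨1, by omega⟩ with hj'
  have hne : j' ≠ j := by
    intro h
    have := congrArg Fin.val h
    simp [hj, hj'] at this
  refine ⟨badGroup j, finiteRank_of_one _ (bad_rank j), bad_rank j, ?_⟩
  intro c hc
  have h := bad_not_bound K j j' hne c hc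
  unfold LehmerBound at h
  push Not at h
  exact h

end Pool.Agent.Results.MP_187c26_nt.NotLehmer
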