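import Pool.Agent.W2helper46.RL.Group

/-!
# The saturated Lehmer groups in tori

`Qb` is an algebraic closure of `ℚ`, and `Torus n = (Fin n → Qbˣ)` is the group of the points of
`G = G_m^n` over it. The notions of the problem are defined in `Pool/Agent/W2helper46/RL/Defs.lean`;
`mon v` is the character of the torus with the vector of exponents `v`.

Let `Γ` be a saturated subgroup of finite rank, and let `A` be the group generated by all
coordinates of the points of `Γ` (`coordGroup`).

**Theorem.** `Γ` is a Lehmer group if and only if `χ(Γ) = A` for every nontrivial character `χ` of
`G_m^n`, and `A^n` is a Lehmer group.

So among the saturated groups with a given group `A` of coordinates, either none is a Lehmer group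
or exactly those are Lehmer groups for which all nontrivial characters have the full image `A`.
There are always such groups different from `A^n` if the rank of `A` is at least two, for example
`Γ = {(x, φ(x))}` up to torsion for a linear map `φ` of `A ⊗ ℚ` without rational eigenvalues; and
`Γ` is not a Lehmer group, for example, if its rank is smaller than the rank of `A`, or if it is the
graph of an endomorphism of `G_m` (up to torsion) and not torsion. The question for all saturated
groups is reduced to the groups `A^n`, which are stable under all endomorphisms of `G_m^n`. It is
not assumed that `K` is a number field, only that it is algebraic over `ℚ`.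

The proof that `χ(Γ) ⊇ A` is the inequality of `CharacterImages.lean`, applied to the roots of the
coordinates of the points of `Γ`, which have small heights. The other direction uses that proper
torsion subvarieties relative to `A^n` are contained in hypersurfaces `χ = a` with `χ` primitive and
`a ∈ A`, which are torsion subvarieties relative to `Γ` if `a ∈ χ(Γ)`.
-/

set_option autoImplicit false

open Pool.Agent.W2helper46.RL

namespace Pool.Agent.Results.MP_187c26_nt.SaturatedLehmer

theorem result (n : ℕ) (K : IntermediateField ℚ Qb) (Γ : Subgroup (Torus n))
    (hΓ : HasFiniteRank Γ) (hs : IsSaturated Γ) :
    IsLehmer K Γ ↔ (∀ v : Fin n → ℤ, v ≠ 0 → Γ.map (mon v) = coordGroup Γ) ∧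
      IsLehmer K (powerGroup n (coordGroup Γ)) :=
  lehmer_iff K Γ hΓ hs

end Pool.Agent.Results.MP_187c26_nt.SaturatedLehmer
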