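import Pool.Agent.W2helper47.RL.Miss

set_option autoImplicit false

/-!
# Rémond's Lehmer property and subgroups of rank smaller than `n` of `G_m^n`

The definitions (in `Pool/Agent/W2helper47/RL/Defs.lean`) follow the problem for `G = G_m^n`,
`𝓛 = O(1, …, 1)` on `(ℙ¹)^n`.
-/

namespace Pool.Agent.Results.MP_187c26_nt.SmallRank

open Pool.Agent.W2helper47.RL

/-- Let `Γ` be a subgroup of `G_m^n` of finite rank `r < n`. If `K(Γ)` contains numbers which are
not roots of unity of arbitrarily small height, then there are proper `Γ`-transverse subvarieties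
whose obstruction index relative to `K(Γ)` is bounded and whose essential minimum is arbitrarily
small, and `Γ` is not a Lehmer group. The hypothesis on `K(Γ)` holds for all saturated groups of
positive rank. -/
theorem result :
    (∀ (n : ℕ) (K : IntermediateField ℚ Qb) (Γ : Subgroup (Torus n)), FiniteRank Γ →
      rank Γ < n →
      (∀ ε : ℝ, 0 < ε → ∃ θ : Qbˣ, (θ : Qb) ∈ fieldOf K Γ ∧ (∀ m : ℕ, 0 < m → θ ^ m ≠ 1) ∧
        NumberField.absLogHeight₁ (θ : Qb) < ε) →
      HasBadFamily K Γ ∧ ¬ IsLehmer K Γ) ∧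
    (∀ (n : ℕ) (K : IntermediateField ℚ Qb) (Γ : Subgroup (Torus n)),
      sat Γ ⊆ (Γ : Set (Torus n)) → FiniteRank Γ → 0 < rank Γ → rank Γ < n →
      HasBadFamily K Γ ∧ ¬ IsLehmer K Γ) := by
  have bad : ∀ (n : ℕ) (K : IntermediateField ℚ Qb) (Γ : Subgroup (Torus n)),
      HasBadFamily K Γ → ¬ IsLehmer K Γ := by
    rintro n K Γ ⟨D, hD, h⟩
    exact not_lehmer_of_family K Γ D hD h
  constructor
  · intro n K Γ hfin hn hsmall
    have h1 : HasBadFamily K Γ := by
      refine badFamily_of_rank K Γ hfin hn fun ε hε => ?_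
      obtain ⟨θ, h1, h2, h3⟩ := hsmall ε hε
      refine ⟨θ, h1, ?_, h3⟩
      rintro ⟨m, hm, h⟩
      exact h2 m hm h
    exact ⟨h1, bad n K Γ h1⟩
  · intro n K Γ hΓ hfin h0 hn
    have h1 : HasBadFamily K Γ :=
      badFamily_of_rank K Γ hfin hn fun ε hε => small_of_sat K Γ hΓ h0 ε hε
    exact ⟨h1, bad n K Γ h1⟩

end Pool.Agent.Results.MP_187c26_nt.SmallRank
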